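import Pool.Agent.Helper48_LPY.Stmts

/-!
# Squad LPY, module FIN: the theorem from the round lemma, the parameters and the recursion
-/

set_option autoImplicit false

namespace Pool.Agent.LPY.H4

open Pool.Agent.Helper14_LA Pool.Agent.LAX Pool.Agent.LPY

theorem fin (h1 : LPY.RndStmt) (h2 : LPY.ParStmt) (h3 : LAX.RecStmt) (h4 : LPY.AnaStmt) :
    LPY.FinStmt := by
  obtain ⟨k₀, hk₀⟩ := h2
  obtain ⟨C, hC⟩ := h4 Cov (max k₀ 1) ((2 : ℝ) ^ 72) (by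
    intro k V _ G hG
    exact greedy (2 * k) _ G rfl hG) (by
    intro k hk
    obtain ⟨l, s, I, f, hp⟩ := hk₀ k (le_trans (le_max_left _ _) hk)
    have e1 : 2 ^ (s + I + 4) = 16 * 2 ^ (s + I) := by ring
    have e2 : 2 ^ (s + I + 3) = 8 * 2 ^ (s + I) := by ring
    have p3 := hp.p3
    have p3' := hp.p3'
    refine ⟨2 ^ (s + I), 2 ^ (s + 2), by omega, by omega, ?_, fun n => ?_⟩
    · have e3 : ((2 ^ (s + 2) : ℕ) : ℝ) = 2 ^ 66 * ((2 : ℝ) ^ l) ^ 3 := by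
        rw [hp.p2]
        push_cast
        ring
      have e6 : ((2 : ℝ) ^ l) ^ 3 ≤ (4 * (Real.log k + 3)) ^ 3 :=
        pow_le_pow_left₀ (by positivity) hp.p1' 3
      rw [e3]
      calc (2 : ℝ) ^ 66 * ((2 : ℝ) ^ l) ^ 3 ≤ 2 ^ 66 * (4 * (Real.log k + 3)) ^ 3 :=
            mul_le_mul_of_nonneg_left e6 (by positivity)
        _ = 2 ^ 72 * (Real.log k + 3) ^ 3 := by ring
    · exact h3 k _ _ (fun V _ E hE => h1 k l s I f hp V E hE) (by omega) n)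
  refine ⟨|C| + 1 / 2, ?_⟩
  intro V _ G Δ hΔ hG
  obtain ⟨n, hn, hnb⟩ := hC ((Δ + 1) / 2) (by omega)
  refine ⟨n, hn V G fun v => (hG v).trans (by omega), ?_⟩
  set k := (Δ + 1) / 2 with hk
  have hkΔ : k ≤ Δ := by omega
  have hk1 : 1 ≤ k := by omega
  have hk2 : (k : ℝ) ≤ Δ / 2 + 1 / 2 := by
    have : 2 * k ≤ Δ + 1 := by omega
    have h5 : (2 : ℝ) * k ≤ Δ + 1 := by exact_mod_cast this
    linarith
  have hkr : (1 : ℝ) ≤ k := by exact_mod_cast hk1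
  have hΔr : (1 : ℝ) ≤ Δ := by exact_mod_cast hΔ
  have hkΔr : (k : ℝ) ≤ Δ := by exact_mod_cast hkΔ
  have hl0 : 0 ≤ Real.log k := Real.log_nonneg hkr
  have hl1 : Real.log k ≤ Real.log Δ := Real.log_le_log (by linarith) hkΔr
  have hm : (1 + Real.log k) ^ 4 ≤ (1 + Real.log Δ) ^ 4 :=
    pow_le_pow_left₀ (by linarith) (by linarith) 4
  have hone : (1 : ℝ) ≤ (1 + Real.log Δ) ^ 4 := one_le_pow₀ (by linarith)
  have h0 : 0 ≤ (1 + Real.log k) ^ 4 := by positivity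
  have hc : C * (1 + Real.log k) ^ 4 ≤ |C| * (1 + Real.log Δ) ^ 4 :=
    (mul_le_mul_of_nonneg_right (le_abs_self C) h0).trans
      (mul_le_mul_of_nonneg_left hm (abs_nonneg C))
  rw [add_mul]
  linarith

end Pool.Agent.LPY.H4
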