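import Pool.Agent.Helper48_LPY.Stmts

/-!
# LPY: module P1

Phase I from the modules P1B, P1S, P1I of LAX and P1M.
-/

set_option autoImplicit false

namespace Pool.Agent.LPY.H4

open Pool.Agent.LAX Pool.Agent.LPY

/-- The condition of the halving lemma. -/
theorem exp_cond {k l s I f : ℕ} (hp : LPY.Par k l s I f) :
    288 * (k : ℝ) ^ 2 ≤ Real.exp (2 * (2 : ℝ) ^ l) := by
  have h1 := hp.p1
  have hk1 : 1 ≤ k := le_trans Nat.one_le_two_pow hp.p3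
  have hkr : (1 : ℝ) ≤ (k : ℝ) ^ 2 := by
    have : (1 : ℝ) ≤ k := by exact_mod_cast hk1
    exact one_le_pow₀ this
  have h0 : (0 : ℝ) ≤ 17 * (k : ℝ) ^ 2 := by positivity
  have h2 : (17 * (k : ℝ) ^ 2) ^ 2 ≤ (Real.exp ((2 : ℝ) ^ l)) ^ 2 := pow_le_pow_left₀ h0 h1 2
  have h3 : (Real.exp ((2 : ℝ) ^ l)) ^ 2 = Real.exp (2 * (2 : ℝ) ^ l) := by
    rw [← Real.exp_nat_mul]
    norm_num
  rw [h3] at h2
  nlinarith only [h2, hkr]

/-- P1. -/
theorem p1 (h1 : LAX.P1BStmt) (h2 : LAX.P1SStmt) (h3 : LAX.P1IStmt) (h4 : LPY.P1mStmt) :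
    LPY.P1Stmt := by
  intro k l s I f hp V _ E hE
  obtain ⟨L, Up, ha, hb, hc, hd, hi⟩ := h4 k l s I f hp
  have hlam : (0 : ℝ) < (2 : ℝ) ^ l := by positivity
  have hexp := exp_cond hp
  have hg : 1 ≤ 2 ^ s := Nat.one_le_two_pow
  have hph : ∀ i ≤ I, PH1 E (2 ^ s) L Up i := by
    intro i
    induction i with
    | zero => intro _; exact h1 V E (2 ^ s) L Up hg
    | succ i ih =>
      intro hiI
      have hlt : i < I := hiI
      obtain ⟨q1, q2, q3, q4⟩ := hi i hlt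
      exact h2 V E k (2 ^ s) ((2 : ℝ) ^ l) L Up i hlam hexp hE q1 q2 q3 q4 (ih hlt.le)
  have hp3 := hp.p3
  have hpow : 2 ^ (s + I + 3) = 8 * (2 ^ s * 2 ^ I) := by ring
  have hI : 1 ≤ 2 ^ I := Nat.one_le_two_pow
  have hle : 2 ^ s ≤ 2 ^ s * 2 ^ I := Nat.le_mul_of_pos_right _ hI
  obtain ⟨F, Z, hF⟩ := h3 V E k (2 ^ s) (17 * 2 ^ s) L Up I hg hE (hph I le_rfl)
    (by push_cast; linarith only [ha])
    (by push_cast; rw [← pow_add]; exact hb) hc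
    (by push_cast; exact hd) (by omega)
  rw [← pow_add] at hF
  have hfin : ∀ v : V, {c | c < 2 ^ (s + I) ∧ v ∈ Z c}.Finite := fun v =>
    (Set.finite_lt_nat (2 ^ (s + I))).subset fun c hc => hc.1
  refine ⟨F, hF.sub, hF.pi, hF.cw, hF.disj, fun v => ?_, fun v => ?_⟩
  · refine (Set.ncard_le_ncard ?_ (hfin v)).trans (hF.few v)
    rintro c ⟨hc, hv⟩
    exact ⟨hc, by_contra fun hz => hv (hF.cov c hc v hz).1⟩
  · refine (Set.ncard_le_ncard ?_ (hfin v)).trans (hF.few v)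
    rintro c ⟨hc, hv⟩
    exact ⟨hc, by_contra fun hz => hv (hF.cov c hc v hz).2⟩

end Pool.Agent.LPY.H4
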